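import Pool.Agent.K7.H75.LG.Resc

/-! Entire curves dominated by few terms of the Taylor series on a circle. -/

set_option autoImplicit false
set_option linter.unusedSectionVars false

namespace Pool.Agent.K7.H75.LG

open Filter Topology Metric Set MvPolynomial

variable {N : ℕ} {X : Set (Fin N → ℂ)}

/-- On the circle `|z| = r` the largest terms of the Taylor series of `f` are among the terms of
index `n, n + w, …, n + d w`, at least two of these terms have the maximal size `μ`, and the sum of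
the sizes of all other terms, the term of index `k` being multiplied by `R ^ (|k - n| / w)`, is at
most `ε μ`. -/
structure Dominated (f : ℂ → Fin N → ℂ) (d : ℕ) (R ε r μ : ℝ) (n w : ℕ) : Prop where
  r_pos : 0 < r
  μ_pos : 0 < μ
  w_pos : 0 < w
  le : ∀ i ≤ d, ‖coef f (n + i * w)‖ * r ^ (n + i * w) ≤ μ
  two : ∃ i j, i < j ∧ j ≤ d ∧ ‖coef f (n + i * w)‖ * r ^ (n + i * w) = μ ∧
    ‖coef f (n + j * w)‖ * r ^ (n + j * w) = μ
  rest : ∀ s : Finset ℕ, (∀ k ∈ s, ∀ i ≤ d, k ≠ n + i * w) →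
    ∑ k ∈ s, ‖coef f k‖ * r ^ k * R ^ (|(k : ℝ) - n| / w) ≤ ε * μ

theorem Conv.shift {E : Type} [NormedAddCommGroup E] {g : ℕ → ℂ → E} {G : ℂ → E} (h : Conv g G)
    (c : ℂ) : Conv (fun j z => g j (c + z)) (fun z => G (c + z)) := by
  intro R ε hε
  filter_upwards [h (‖c‖ + R) ε hε] with j hj z hz
  exact hj _ ((norm_add_le _ _).trans (by linarith))

theorem norm_le_of_hasSum {E : Type} [NormedAddCommGroup E] {u : ℕ → E} {S : E} (h : HasSum u S)
    {C : ℝ} (hC : ∀ s : Finset ℕ, ∑ k ∈ s, ‖u k‖ ≤ C) : ‖S‖ ≤ C :=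
  le_of_tendsto h.norm (Eventually.of_forall fun s => (norm_sum_le _ _).trans (hC s))

/-- a polynomial with two nonzero coefficients has a nonzero root -/
theorem exists_root_ne {P : Polynomial ℂ} {i j : ℕ} (hij : i ≠ j) (hi : P.coeff i ≠ 0)
    (hj : P.coeff j ≠ 0) : ∃ w, w ≠ 0 ∧ P.eval w = 0 := by
  by_contra hcon
  push Not at hcon
  have h0 : P ≠ 0 := fun h => hi (by rw [h, Polynomial.coeff_zero])
  have h1 : P.roots = Multiset.replicate (Multiset.card P.roots) 0 := by
    rw [Multiset.eq_replicate]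
    refine ⟨rfl, fun w hw => ?_⟩
    by_contra hw0
    exact hcon w hw0 ((Polynomial.mem_roots h0).1 hw)
  have h2 := (IsAlgClosed.splits P).eq_prod_roots
  rw [h1] at h2
  simp only [Multiset.map_replicate, Polynomial.C_0, sub_zero, Multiset.prod_replicate] at h2
  rw [h2] at hi hj
  rw [Polynomial.coeff_C_mul, Polynomial.coeff_X_pow] at hi hj
  simp only [ne_eq, mul_ite, mul_one, mul_zero, ite_eq_right_iff, Classical.not_imp] at hi hj
  exact hij (hi.1.trans hj.1.symm)

/-- the order of vanishing of an exponential polynomial -/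
theorem exists_coef_exp {d : ℕ} {P : Polynomial ℂ} (hd : P.natDegree ≤ d) (h0 : P ≠ 0) {w : ℂ}
    (hw : w ≠ 0) : ∃ l ≤ d, coef (fun z => P.eval (w * Complex.exp z)) l ≠ 0 := by
  by_contra hcon
  push Not at hcon
  have h1 : (fun z => P.eval (w * Complex.exp z))
      = fun z => ∑ i : Fin (d + 1), (P.coeff i * w ^ (i : ℕ)) * Complex.exp ((i : ℕ) * z) := by
    funext z
    rw [Polynomial.eval_eq_sum_range' (Nat.lt_succ_of_le hd),
      ← Fin.sum_univ_eq_sum_range (fun i => P.coeff i * (w * Complex.exp z) ^ i)]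
    refine Finset.sum_congr rfl fun i _ => ?_
    rw [mul_pow, ← Complex.exp_nat_mul]
    ring
  have h2 : ∀ l, iteratedDeriv l (fun z => P.eval (w * Complex.exp z)) 0
      = ∑ i : Fin (d + 1), (P.coeff i * w ^ (i : ℕ)) * ((i : ℕ) : ℂ) ^ l := by
    intro l
    rw [h1, iteratedDeriv_fun_sum (fun i _ => by fun_prop)]
    refine Finset.sum_congr rfl fun i _ => ?_
    rw [iteratedDeriv_const_mul_field, iteratedDeriv_cexp_const_mul]
    simp
  have h3 : (fun i : Fin (d + 1) => P.coeff i * w ^ (i : ℕ)) = 0 := by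
    apply Matrix.eq_zero_of_forall_pow_sum_mul_pow_eq_zero
      (f := fun i : Fin (d + 1) => ((i : ℕ) : ℂ))
    · intro a b hab
      have h4 : ((a : ℕ) : ℂ) = ((b : ℕ) : ℂ) := hab
      exact Fin.ext (by exact_mod_cast h4)
    · intro l
      have h4 := hcon l (by omega)
      unfold coef at h4
      rw [h2] at h4
      exact (smul_eq_zero.1 h4).resolve_left (inv_ne_zero (by exact_mod_cast (l : ℕ).factorial_ne_zero))
  apply h0
  ext i
  rw [Polynomial.coeff_zero]
  by_cases hi : i ≤ d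
  · have h4 := congrFun h3 ⟨i, by omega⟩
    exact (mul_eq_zero.1 h4).resolve_right (pow_ne_zero _ hw)
  · exact Polynomial.coeff_eq_zero_of_natDegree_lt (by omega)

/-- **Isolated clusters.** If `X` contains no rational curve of degree at most `d`, there are `R`
and `ε`, depending only on `X` and `d`, such that no entire curve in `X` is dominated by `d + 1`
terms in arithmetic progression, two of them of maximal size, on a circle. -/
theorem not_dominated (hX : IsClosed X) (hs : ∀ (a : ℂ), ∀ x ∈ X, a • x ∈ X) {d : ℕ} (hno : ¬ RatCurve X d) :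
    ∃ R ε : ℝ, 1 < R ∧ 0 < ε ∧ ∀ f : ℂ → Fin N → ℂ, Cur X f → ∀ (r μ : ℝ) (n w : ℕ),
      ¬ Dominated f d R ε r μ n w := by
  by_contra hcon
  push Not at hcon
  have h1 : ∀ j : ℕ, ∃ f : ℂ → Fin N → ℂ, Cur X f ∧ ∃ (r μ : ℝ) (n w : ℕ),
      Dominated f d (Real.exp ((j : ℝ) + 1)) (1 / ((j : ℝ) + 1)) r μ n w := fun j =>
    hcon _ _ (Real.one_lt_exp_iff.2 (by positivity)) (by positivity)
  choose f hf r μ n w hD using h1
  have hw0 : ∀ j, (w j : ℂ) ≠ 0 := fun j => by exact_mod_cast (hD j).w_pos.ne'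
  set b : ℕ → Fin (d + 1) → Fin N → ℂ := fun j i =>
    (((μ j)⁻¹ * r j ^ (n j + (i : ℕ) * w j) : ℝ) : ℂ) • coef (f j) (n j + (i : ℕ) * w j) with hb
  have hbn : ∀ j (i : Fin (d + 1)), ‖b j i‖ =
      (μ j)⁻¹ * (‖coef (f j) (n j + (i : ℕ) * w j)‖ * r j ^ (n j + (i : ℕ) * w j)) := by
    intro j i
    have h2 : 0 < (μ j)⁻¹ * r j ^ (n j + (i : ℕ) * w j) :=
      mul_pos (inv_pos.2 (hD j).μ_pos) (pow_pos (hD j).r_pos _)
    show ‖(((μ j)⁻¹ * r j ^ (n j + (i : ℕ) * w j) : ℝ) : ℂ) •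
      coef (f j) (n j + (i : ℕ) * w j)‖ = _
    rw [norm_smul, Complex.norm_real, Real.norm_eq_abs, abs_of_pos h2]
    ring
  have hb1 : ∀ j, b j ∈ closedBall (0 : Fin (d + 1) → Fin N → ℂ) 1 := by
    intro j
    rw [mem_closedBall_zero_iff, pi_norm_le_iff_of_nonneg zero_le_one]
    intro i
    rw [hbn, inv_mul_le_iff₀ (hD j).μ_pos, mul_one]
    exact (hD j).le i (by omega)
  obtain ⟨B, -, ψ, hψ, hB⟩ := (isCompact_closedBall (0 : Fin (d + 1) → Fin N → ℂ) 1).tendsto_subseq
    hb1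
  -- the rescaled curves
  set g : ℕ → ℂ → Fin N → ℂ := fun j z =>
    (((μ j)⁻¹ : ℝ) * Complex.exp (-(n j * z / w j)) : ℂ) •
      f j (r j * Complex.exp (z / w j)) with hg
  have hgc : ∀ j, Cur X (g j) := by
    intro j
    have hμ : (((μ j)⁻¹ : ℝ) : ℂ) ≠ 0 := by exact_mod_cast (inv_pos.2 (hD j).μ_pos).ne'
    refine ⟨?_, fun z => smul_ne_zero (mul_ne_zero hμ (Complex.exp_ne_zero _)) ((hf j).ne _),
      fun z => hs _ _ ((hf j).mem _)⟩
    · have h0 : Differentiable ℂ fun z : ℂ => (r j : ℂ) * Complex.exp (z / w j) := by fun_prop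
      have h2 : Differentiable ℂ fun z : ℂ => f j (r j * Complex.exp (z / w j)) :=
        (hf j).diff.comp h0
      have h3 : Differentiable ℂ fun z : ℂ =>
          ((((μ j)⁻¹ : ℝ) : ℂ) * Complex.exp (-(n j * z / w j))) := by fun_prop
      exact h3.smul h2
  have hgb : ∀ (j : ℕ) (z : ℂ), ‖z‖ ≤ (j : ℝ) + 1 →
      ‖g j z - ∑ i : Fin (d + 1), Complex.exp z ^ (i : ℕ) • b j i‖ ≤ 1 / ((j : ℝ) + 1) := by
    intro j z hz
    have hr := (hD j).r_pos
    have hμ := (hD j).μ_pos
    have hwp : (0 : ℝ) < w j := by exact_mod_cast (hD j).w_pos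
    set t : ℕ → Fin N → ℂ := fun k =>
      (((μ j)⁻¹ : ℝ) * Complex.exp (-(n j * z / w j)) : ℂ) •
        ((r j * Complex.exp (z / w j)) ^ k • coef (f j) k) with ht
    have h2 : HasSum t (g j z) := (hasSum_coef (hf j).diff _).const_smul _
    set S : Finset ℕ := Finset.univ.image fun i : Fin (d + 1) => n j + (i : ℕ) * w j with hS
    have hinj : Function.Injective fun i : Fin (d + 1) => n j + (i : ℕ) * w j := by
      intro a c hac
      have h3 : (a : ℕ) * w j = (c : ℕ) * w j := by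
        have : n j + (a : ℕ) * w j = n j + (c : ℕ) * w j := hac
        omega
      exact Fin.ext (Nat.eq_of_mul_eq_mul_right (hD j).w_pos h3)
    have hSsum : ∑ k ∈ S, t k = ∑ i : Fin (d + 1), Complex.exp z ^ (i : ℕ) • b j i := by
      rw [hS, Finset.sum_image (fun a _ c _ h => hinj h)]
      refine Finset.sum_congr rfl fun i _ => ?_
      show (((μ j)⁻¹ : ℝ) * Complex.exp (-(n j * z / w j)) : ℂ) •
        ((r j * Complex.exp (z / w j)) ^ (n j + (i : ℕ) * w j) •
          coef (f j) (n j + (i : ℕ) * w j)) = Complex.exp z ^ (i : ℕ) •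
            ((((μ j)⁻¹ * r j ^ (n j + (i : ℕ) * w j) : ℝ) : ℂ) •
              coef (f j) (n j + (i : ℕ) * w j))
      rw [smul_smul, smul_smul]
      congr 1
      rw [mul_pow, ← Complex.exp_nat_mul, ← Complex.exp_nat_mul]
      have h4 : (((n j + (i : ℕ) * w j : ℕ)) : ℂ) * (z / w j) = n j * z / w j + (i : ℕ) * z := by
        push_cast
        field_simp [hw0 j]
      rw [h4, Complex.exp_add]
      have h5 : Complex.exp (-(n j * z / w j)) * Complex.exp (n j * z / w j) = 1 := by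
        rw [← Complex.exp_add, neg_add_cancel, Complex.exp_zero]
      push_cast
      linear_combination ((μ j : ℂ)⁻¹ * (r j : ℂ) ^ (n j + (i : ℕ) * w j) *
        Complex.exp ((i : ℕ) * z)) * h5
    have h3 : HasSum (fun k => if k ∈ S then t k else 0) (∑ k ∈ S, t k) := by
      have h4 : HasSum (fun k => if k ∈ S then t k else 0)
          (∑ k ∈ S, if k ∈ S then t k else 0) :=
        hasSum_sum_of_ne_finset_zero (fun k hk => if_neg hk)
      rwa [Finset.sum_congr rfl (fun k hk => if_pos hk)] at h4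
    have h4 := h2.sub h3
    rw [hSsum] at h4
    refine norm_le_of_hasSum h4 fun s => ?_
    have h5 : ∀ k, ‖t k - (if k ∈ S then t k else 0)‖ = if k ∈ S then 0 else ‖t k‖ := by
      intro k
      split_ifs <;> simp
    simp only [h5]
    rw [← Finset.sum_filter_add_sum_filter_not s (fun k => k ∈ S)]
    rw [Finset.sum_congr rfl (g := fun _ => (0 : ℝ)) (fun k hk => by
      rw [if_pos (Finset.mem_filter.1 hk).2]), Finset.sum_const_zero, zero_add]
    rw [Finset.sum_congr rfl (g := fun k => ‖t k‖) (fun k hk => by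
      rw [if_neg (Finset.mem_filter.1 hk).2])]
    have h6 := (hD j).rest (s.filter fun k => ¬ k ∈ S) (fun k hk i hi hki => by
      apply (Finset.mem_filter.1 hk).2
      rw [hS, Finset.mem_image]
      exact ⟨⟨i, by omega⟩, Finset.mem_univ _, hki.symm⟩)
    have h7 : ∀ k, ‖t k‖ ≤ (μ j)⁻¹ * (‖coef (f j) k‖ * r j ^ k *
        Real.exp ((j : ℝ) + 1) ^ (|(k : ℝ) - n j| / w j)) := by
      intro k
      show ‖(((μ j)⁻¹ : ℝ) * Complex.exp (-(n j * z / w j)) : ℂ) •
        ((r j * Complex.exp (z / w j)) ^ k • coef (f j) k)‖ ≤ _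
      rw [smul_smul, norm_smul, mul_pow, ← Complex.exp_nat_mul]
      have h8 : ((((μ j)⁻¹ : ℝ) : ℂ) * Complex.exp (-(n j * z / w j)) *
          ((r j : ℂ) ^ k * Complex.exp (k * (z / w j))))
          = (((μ j)⁻¹ * r j ^ k : ℝ) : ℂ) * Complex.exp (((((k : ℝ) - n j) / w j : ℝ) : ℂ) * z) := by
        have h9 : Complex.exp (((((k : ℝ) - n j) / w j : ℝ) : ℂ) * z)
            = Complex.exp (-(n j * z / w j)) * Complex.exp (k * (z / w j)) := by
          rw [← Complex.exp_add]
          congr 1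
          push_cast
          field_simp [hw0 j]
          ring
        rw [h9]
        push_cast
        ring
      rw [h8, norm_mul, Complex.norm_real, Real.norm_eq_abs, Complex.norm_exp,
        abs_of_pos (mul_pos (inv_pos.2 hμ) (pow_pos hr k)), Complex.re_ofReal_mul,
        ← Real.exp_mul]
      have h10 : ((k : ℝ) - n j) / w j * z.re ≤ ((j : ℝ) + 1) * (|(k : ℝ) - n j| / w j) := by
        calc ((k : ℝ) - n j) / w j * z.re ≤ |((k : ℝ) - n j) / w j * z.re| := le_abs_self _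
          _ = (|(k : ℝ) - n j| / w j) * |z.re| := by
            rw [abs_mul, abs_div, abs_of_pos hwp]
          _ ≤ (|(k : ℝ) - n j| / w j) * ((j : ℝ) + 1) :=
            mul_le_mul_of_nonneg_left ((Complex.abs_re_le_norm z).trans hz) (by positivity)
          _ = _ := mul_comm _ _
      calc (μ j)⁻¹ * r j ^ k * Real.exp (((k : ℝ) - n j) / w j * z.re) * ‖coef (f j) k‖
          ≤ (μ j)⁻¹ * r j ^ k * Real.exp (((j : ℝ) + 1) * (|(k : ℝ) - n j| / w j)) *
            ‖coef (f j) k‖ := by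
            have := hμ.le
            gcongr
        _ = _ := by ring
    calc ∑ k ∈ s with ¬ k ∈ S, ‖t k‖ ≤ ∑ k ∈ s with ¬ k ∈ S,
          (μ j)⁻¹ * (‖coef (f j) k‖ * r j ^ k *
            Real.exp ((j : ℝ) + 1) ^ (|(k : ℝ) - n j| / w j)) :=
          Finset.sum_le_sum fun k _ => h7 k
      _ = (μ j)⁻¹ * ∑ k ∈ s with ¬ k ∈ S, ‖coef (f j) k‖ * r j ^ k *
            Real.exp ((j : ℝ) + 1) ^ (|(k : ℝ) - n j| / w j) := by rw [Finset.mul_sum]
      _ ≤ (μ j)⁻¹ * (1 / ((j : ℝ) + 1) * μ j) :=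
          mul_le_mul_of_nonneg_left h6 (inv_pos.2 hμ).le
      _ = 1 / ((j : ℝ) + 1) := by field_simp
  -- convergence
  have hconv : Conv (fun j => g (ψ j)) (fun z => ∑ i : Fin (d + 1), Complex.exp z ^ (i : ℕ) • B i) := by
    intro R ε hε
    set C : ℝ := ∑ i : Fin (d + 1), Real.exp (max R 0) ^ (i : ℕ) with hC
    have e1 : Tendsto (fun j : ℕ => 1 / (((ψ j : ℕ) : ℝ) + 1)) atTop (𝓝 0) :=
      tendsto_one_div_add_atTop_nhds_zero_nat.comp hψ.tendsto_atTop
    have e2 : Tendsto (fun j => C * ‖b (ψ j) - B‖) atTop (𝓝 0) := by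
      have h2 : Tendsto (fun j => b (ψ j)) atTop (𝓝 B) := hB
      have h3 : Tendsto (fun j => ‖b (ψ j) - B‖) atTop (𝓝 0) := by
        simpa using (h2.sub_const B).norm
      have := h3.const_mul C
      rwa [mul_zero] at this
    filter_upwards [e1.eventually (gt_mem_nhds (half_pos hε)),
      e2.eventually (gt_mem_nhds (half_pos hε)),
      (tendsto_natCast_atTop_atTop.comp hψ.tendsto_atTop).eventually_ge_atTop R] with j h2 h3 h4 z hz
    have h5 := hgb (ψ j) z (by
      have : R ≤ ((ψ j : ℕ) : ℝ) := h4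
      linarith)
    have h6 : ‖∑ i : Fin (d + 1), Complex.exp z ^ (i : ℕ) • b (ψ j) i
        - ∑ i : Fin (d + 1), Complex.exp z ^ (i : ℕ) • B i‖ ≤ C * ‖b (ψ j) - B‖ := by
      rw [← Finset.sum_sub_distrib, hC, Finset.sum_mul]
      refine (norm_sum_le _ _).trans (Finset.sum_le_sum fun i _ => ?_)
      rw [← smul_sub, norm_smul, norm_pow, Complex.norm_exp]
      have h7 : ‖b (ψ j) i - B i‖ ≤ ‖b (ψ j) - B‖ := norm_le_pi_norm (b (ψ j) - B) i
      have h8 : z.re ≤ max R 0 :=
        ((le_abs_self _).trans (Complex.abs_re_le_norm z)).trans (hz.trans (le_max_left _ _))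
      gcongr
    calc ‖g (ψ j) z - ∑ i : Fin (d + 1), Complex.exp z ^ (i : ℕ) • B i‖
        = ‖(g (ψ j) z - ∑ i : Fin (d + 1), Complex.exp z ^ (i : ℕ) • b (ψ j) i)
          + (∑ i : Fin (d + 1), Complex.exp z ^ (i : ℕ) • b (ψ j) i
            - ∑ i : Fin (d + 1), Complex.exp z ^ (i : ℕ) • B i)‖ := by
          congr 1; abel
      _ ≤ _ := norm_add_le _ _
      _ < ε := by linarith
  -- two coefficients of norm one
  have htwo : ∃ i j : Fin (d + 1), i ≠ j ∧ ‖B i‖ = 1 ∧ ‖B j‖ = 1 := by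
    have hcl : IsClosed {x : Fin (d + 1) → Fin N → ℂ |
        ∃ i j : Fin (d + 1), i ≠ j ∧ ‖x i‖ = 1 ∧ ‖x j‖ = 1} := by
      have h2 : {x : Fin (d + 1) → Fin N → ℂ |
          ∃ i j : Fin (d + 1), i ≠ j ∧ ‖x i‖ = 1 ∧ ‖x j‖ = 1}
          = ⋃ i : Fin (d + 1), ⋃ j ∈ {j : Fin (d + 1) | i ≠ j}, {x | ‖x i‖ = 1 ∧ ‖x j‖ = 1} := by
        ext x
        simp only [Set.mem_ofPred_eq, mem_iUnion, exists_prop]
      rw [h2]
      refine isClosed_iUnion_of_finite fun i => (Set.toFinite _).isClosed_biUnion fun j _ => ?_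
      exact (isClosed_eq (continuous_apply i).norm continuous_const).inter
        (isClosed_eq (continuous_apply j).norm continuous_const)
    refine hcl.mem_of_tendsto hB (Eventually.of_forall fun j => ?_)
    obtain ⟨i, k, hik, hk, h2, h3⟩ := (hD (ψ j)).two
    refine ⟨⟨i, by omega⟩, ⟨k, by omega⟩, fun h => ?_, ?_, ?_⟩
    · have := congrArg Fin.val h
      simp at this
      omega
    · show ‖b (ψ j) ⟨i, by omega⟩‖ = 1
      rw [hbn]
      show (μ (ψ j))⁻¹ * (‖coef (f (ψ j)) (n (ψ j) + i * w (ψ j))‖ *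
        r (ψ j) ^ (n (ψ j) + i * w (ψ j))) = 1
      rw [h2]
      exact inv_mul_cancel₀ (hD (ψ j)).μ_pos.ne'
    · show ‖b (ψ j) ⟨k, by omega⟩‖ = 1
      rw [hbn]
      show (μ (ψ j))⁻¹ * (‖coef (f (ψ j)) (n (ψ j) + k * w (ψ j))‖ *
        r (ψ j) ^ (n (ψ j) + k * w (ψ j))) = 1
      rw [h3]
      exact inv_mul_cancel₀ (hD (ψ j)).μ_pos.ne'
  obtain ⟨i1, i2, hne, hB1, hB2⟩ := htwo
  -- the limit is in `X`
  have hmem0 : ∀ z, (fun p => (polyOf B p).eval (Complex.exp z)) ∈ X := by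
    intro z
    rw [eval_polyOf]
    exact hX.mem_of_tendsto (hconv.at z) (Eventually.of_forall fun n => (hgc _).mem z)
  have hmem : ∀ t, (fun p => (polyOf B p).eval t) ∈ X := by
    intro t
    have h4 : Continuous fun t : ℂ => fun p => (polyOf B p).eval t := by fun_prop
    have h5 : IsClosed {t : ℂ | (fun p => (polyOf B p).eval t) ∈ X} := hX.preimage h4
    have h6 : closure ({0}ᶜ : Set ℂ) ⊆ {t : ℂ | (fun p => (polyOf B p).eval t) ∈ X} :=
      closure_minimal (fun t ht => by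
        obtain ⟨z, rfl⟩ : ∃ z, Complex.exp z = t := ⟨Complex.log t, Complex.exp_log ht⟩
        exact hmem0 z) h5
    rw [(dense_compl_singleton (0 : ℂ)).closure_eq] at h6
    exact h6 (mem_univ t)
  have hB1' : B i1 ≠ 0 := fun h => by rw [h, norm_zero] at hB1; exact zero_ne_one hB1
  have hB2' : B i2 ≠ 0 := fun h => by rw [h, norm_zero] at hB2; exact zero_ne_one hB2
  obtain ⟨p0, hp0⟩ := Function.ne_iff.1 hB1'
  obtain ⟨u, hu, hP⟩ := poly_alt hX hs hmem hno hp0
  have hcoe : ∀ (i : Fin (d + 1)) p, B i p = u p * B i p0 := by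
    intro i p
    have h2 := congrArg (fun P => P.coeff (i : ℕ)) (hP p)
    simp only [Polynomial.coeff_C_mul] at h2
    rw [coeff_polyOf, coeff_polyOf] at h2
    exact h2
  have hp0' : B i2 p0 ≠ 0 := by
    intro h2
    apply hB2'
    funext p
    rw [hcoe, h2, mul_zero]
    rfl
  set P := polyOf B p0 with hPdef
  obtain ⟨w0, hw00, hroot⟩ := exists_root_ne (P := P) (i := i1) (j := i2)
    (fun h => hne (Fin.ext h)) (by rw [hPdef, coeff_polyOf]; exact hp0)
    (by rw [hPdef, coeff_polyOf]; exact hp0')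
  have hP0 : P ≠ 0 := by
    intro h2
    apply hp0'
    rw [← coeff_polyOf B p0 i2, ← hPdef, h2, Polynomial.coeff_zero]
  have hlim : (fun z : ℂ => ∑ i : Fin (d + 1), Complex.exp (Complex.log w0 + z) ^ (i : ℕ) • B i)
      = fun z => P.eval (w0 * Complex.exp z) • u := by
    funext z
    rw [Complex.exp_add, Complex.exp_log hw00, ← eval_polyOf]
    funext p
    rw [hP p, Polynomial.eval_mul, Polynomial.eval_C, Pi.smul_apply, smul_eq_mul, mul_comm]
  have hconv' := hconv.shift (Complex.log w0)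
  rw [hlim] at hconv'
  refine hno (ratCurve_of_zero hX hs d (fun j z => g (ψ j) (Complex.log w0 + z)) (fun j => ?_)
    (fun z => P.eval (w0 * Complex.exp z)) u ?_ (fun h2 => ?_) hconv' ?_
    (exists_coef_exp (natDegree_polyOf B p0) hP0 hw00))
  · have h2 := (hgc (ψ j)).aff hs one_ne_zero 1 (Complex.log w0)
    simpa using h2
  · exact P.differentiable.comp (by fun_prop)
  · rw [h2] at hu
    exact zero_ne_one hu
  · simpa using hroot

end Pool.Agent.K7.H75.LG
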