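import Pool.Agent.K7.H75.LG.Dom

/-! Lacunary Taylor series: the slopes of the Newton polygon. -/

set_option autoImplicit false
set_option linter.unusedSectionVars false

namespace Pool.Agent.K7.H75.LG

open Filter Topology Metric Set MvPolynomial

variable {N : ℕ} {X : Set (Fin N → ℂ)}

theorem coef_tendsto {f : ℂ → Fin N → ℂ} (hf : Differentiable ℂ f) {ρ : ℝ} (hρ : 0 ≤ ρ) :
    Tendsto (fun k => ‖coef f k‖ * ρ ^ k) atTop (𝓝 0) := by
  have h1 := (hasSum_coef hf (ρ : ℂ)).summable.tendsto_atTop_zero.norm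
  rw [norm_zero] at h1
  refine h1.congr fun k => ?_
  rw [norm_smul, norm_pow, Complex.norm_real, Real.norm_eq_abs, abs_of_nonneg hρ, mul_comm]

/-- geometric bound for the terms outside of an interval -/
theorem geom_out {K A : ℝ} (hK : 2 ≤ K) (hA : 0 ≤ A) {n d : ℕ} {x : ℕ → ℝ}
    (hlo : ∀ k < n, x k ≤ A * (K⁻¹) ^ (n - k)) (hhi : ∀ k, n + d < k → x k ≤ A * (K⁻¹) ^ (k - (n + d)))
    (s : Finset ℕ) (hs : ∀ k ∈ s, k < n ∨ n + d < k) : ∑ k ∈ s, x k ≤ 4 * A / K := by
  have hK0 : 0 < K := by linarith
  have hK1 : K⁻¹ < 1 := by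
    rw [inv_lt_one₀ hK0]; linarith
  have hKi : 0 ≤ K⁻¹ := by positivity
  have hS : Summable fun l : ℕ => K⁻¹ * (K⁻¹) ^ l := (summable_geometric_of_lt_one hKi hK1).mul_left _
  have hT : ∑' l : ℕ, K⁻¹ * (K⁻¹) ^ l ≤ 2 / K := by
    rw [tsum_mul_left, tsum_geometric_of_lt_one hKi hK1]
    have h1 : (1 - K⁻¹)⁻¹ ≤ 2 := by
      rw [inv_le_comm₀ (by linarith) two_pos]
      have : K⁻¹ ≤ 2⁻¹ := inv_anti₀ two_pos hK
      linarith
    calc K⁻¹ * (1 - K⁻¹)⁻¹ ≤ K⁻¹ * 2 := by gcongr
      _ = 2 / K := by field_simp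
  rw [← Finset.sum_filter_add_sum_filter_not s (fun k => k < n)]
  have e1 : ∑ k ∈ s with k < n, x k ≤ A * (2 / K) := by
    calc ∑ k ∈ s with k < n, x k ≤ ∑ k ∈ s with k < n, A * (K⁻¹ * (K⁻¹) ^ (n - k - 1)) := by
          refine Finset.sum_le_sum fun k hk => ?_
          have h2 := (Finset.mem_filter.1 hk).2
          refine (hlo k h2).trans (le_of_eq ?_)
          rw [← pow_succ', show n - k - 1 + 1 = n - k by omega]
      _ = A * ∑ l ∈ (s.filter fun k => k < n).image (fun k => n - k - 1), K⁻¹ * (K⁻¹) ^ l := by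
          rw [← Finset.mul_sum, Finset.sum_image]
          intro a ha b hb hab
          have h2 := (Finset.mem_filter.1 ha).2
          have h3 := (Finset.mem_filter.1 hb).2
          have h4 : n - a - 1 = n - b - 1 := hab
          omega
      _ ≤ A * ∑' l : ℕ, K⁻¹ * (K⁻¹) ^ l := by
          gcongr
          exact hS.sum_le_tsum _ fun i _ => by positivity
      _ ≤ A * (2 / K) := by gcongr
  have e2 : ∑ k ∈ s with ¬ k < n, x k ≤ A * (2 / K) := by
    have h5 : ∀ k ∈ s.filter (fun k => ¬ k < n), n + d < k := fun k hk => by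
      have h2 := Finset.mem_filter.1 hk
      exact (hs k h2.1).resolve_left h2.2
    calc ∑ k ∈ s with ¬ k < n, x k
        ≤ ∑ k ∈ s with ¬ k < n, A * (K⁻¹ * (K⁻¹) ^ (k - (n + d) - 1)) := by
          refine Finset.sum_le_sum fun k hk => ?_
          have h2 := h5 k hk
          refine (hhi k h2).trans (le_of_eq ?_)
          rw [← pow_succ', show k - (n + d) - 1 + 1 = k - (n + d) by omega]
      _ = A * ∑ l ∈ (s.filter fun k => ¬ k < n).image (fun k => k - (n + d) - 1),
            K⁻¹ * (K⁻¹) ^ l := by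
          rw [← Finset.mul_sum, Finset.sum_image]
          intro a ha b hb hab
          have h2 := h5 a ha
          have h3 := h5 b hb
          have h4 : a - (n + d) - 1 = b - (n + d) - 1 := hab
          omega
      _ ≤ A * ∑' l : ℕ, K⁻¹ * (K⁻¹) ^ l := by
          gcongr
          exact hS.sum_le_tsum _ fun i _ => by positivity
      _ ≤ A * (2 / K) := by gcongr
  calc _ ≤ A * (2 / K) + A * (2 / K) := add_le_add e1 e2
    _ = 4 * A / K := by ring

/-- For the series `∑ c_j z ^ (n j)`, `c_j = coef f (n j)`: the slope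
`(log ‖c_j‖ - log ‖c_{j+1}‖) / (n (j + 1) - n j)`; on the circle whose radius has this logarithm the
terms `j` and `j + 1` have the same size. -/
noncomputable def slope (f : ℂ → Fin N → ℂ) (n : ℕ → ℕ) (j : ℕ) : ℝ :=
  (Real.log ‖coef f (n j)‖ - Real.log ‖coef f (n (j + 1))‖) / ((n (j + 1) : ℝ) - n j)

/-- **Lacunary series.** -/
theorem lacunary (hX : IsClosed X) (hs : ∀ (a : ℂ), ∀ x ∈ X, a • x ∈ X) (hno : ¬ RatCurve X 1) :
    ∃ C : ℝ, ∀ f : ℂ → Fin N → ℂ, Cur X f → ∀ n : ℕ → ℕ, StrictMono n →
      (∀ k, coef f k ≠ 0 ↔ ∃ j, n j = k) →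
      ∃ᶠ j in atTop, (slope f n (j + 1) - slope f n j) *
        min ((n (j + 1) : ℝ) - n j) ((n (j + 2) : ℝ) - n (j + 1)) ≤ C := by
  obtain ⟨R, ε, hR, hε, hD⟩ := not_dominated hX hs hno
  have hR0 : 0 < R := by linarith
  set A := Real.log R with hA
  have hA0 : 0 < A := Real.log_pos hR
  set K0 : ℝ := max 2 (5 * R / ε) with hK0
  have hK02 : 2 ≤ K0 := le_max_left _ _
  set C : ℝ := max (2 * A) (2 * Real.log K0) with hC
  have hC0 : 0 < C := lt_of_lt_of_le (by linarith) (le_max_left _ _)
  have hCA : 2 * A ≤ C := le_max_left _ _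
  set K := Real.exp (C / 2) with hKdef
  have hKK : K0 ≤ K := by
    rw [hKdef, ← Real.log_le_iff_le_exp (by linarith)]
    have : 2 * Real.log K0 ≤ C := le_max_right _ _
    linarith
  have hK2 : 2 ≤ K := hK02.trans hKK
  have hKpos : 0 < K := by linarith
  have hKε : 5 * R / K ≤ ε := by
    rw [div_le_iff₀ hKpos]
    have h1 : 5 * R / ε ≤ K := (le_max_right _ _).trans hKK
    rw [div_le_iff₀ hε] at h1
    linarith
  refine ⟨C, fun f hf n hn hcoef => ?_⟩
  rw [Filter.frequently_atTop]
  by_contra hcon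
  push Not at hcon
  obtain ⟨J0, hJ0⟩ := hcon
  -- notation
  set c : ℕ → ℝ := fun j => ‖coef f (n j)‖ with hc
  have hcpos : ∀ j, 0 < c j := fun j => norm_pos_iff.2 ((hcoef (n j)).2 ⟨j, rfl⟩)
  set g : ℕ → ℝ := fun j => (n (j + 1) : ℝ) - n j with hg
  have hg1 : ∀ j, 1 ≤ g j := fun j => by
    have h1 : n j + 1 ≤ n (j + 1) := hn (Nat.lt_succ_self j)
    have h2 : ((n j + 1 : ℕ) : ℝ) ≤ n (j + 1) := by exact_mod_cast h1
    push_cast at h2
    show 1 ≤ (n (j + 1) : ℝ) - n j
    linarith
  have hg0 : ∀ j, 0 < g j := fun j => by linarith [hg1 j]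
  set s : ℕ → ℝ := fun j => slope f n j with hsdef
  have hlog : ∀ j, Real.log (c (j + 1)) = Real.log (c j) - s j * g j := by
    intro j
    have h1 : s j * g j = Real.log (c j) - Real.log (c (j + 1)) := by
      show (Real.log (c j) - Real.log (c (j + 1))) / g j * g j = _
      exact div_mul_cancel₀ _ (hg0 j).ne'
    linarith
  have hl1 : ∀ j, J0 ≤ j → C < (s (j + 1) - s j) * g j ∧ C < (s (j + 1) - s j) * g (j + 1) ∧
      0 < s (j + 1) - s j := by
    intro j hj
    have h1 : C < (s (j + 1) - s j) * min (g j) (g (j + 1)) := hJ0 j hj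
    have h2 : 0 < min (g j) (g (j + 1)) := lt_min (hg0 _) (hg0 _)
    have h3 : 0 < s (j + 1) - s j := by
      by_contra h
      push Not at h
      have : (s (j + 1) - s j) * min (g j) (g (j + 1)) ≤ 0 := mul_nonpos_of_nonpos_of_nonneg h h2.le
      linarith
    exact ⟨h1.trans_le (mul_le_mul_of_nonneg_left (min_le_left _ _) h3.le),
      h1.trans_le (mul_le_mul_of_nonneg_left (min_le_right _ _) h3.le), h3⟩
  have hmono : ∀ i j, J0 ≤ i → i ≤ j → s i ≤ s j := by
    intro i j hi hij
    induction j, hij using Nat.le_induction with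
    | base => exact le_rfl
    | succ j hij ih => exact ih.trans (by linarith [(hl1 j (by omega)).2.2])
  -- the slopes are unbounded
  have hunb : ∀ B : ℝ, ∃ j, J0 ≤ j ∧ B < s j := by
    intro B
    by_contra h
    push Not at h
    have h1 : ∀ j, J0 ≤ j → Real.log (c J0) + B * n J0 ≤ Real.log (c j) + B * n j := by
      intro j hj
      induction j, hj using Nat.le_induction with
      | base => exact le_rfl
      | succ j hj ih =>
        rw [hlog]
        have h2 := h j hj
        have h3 : s j * g j ≤ B * g j := mul_le_mul_of_nonneg_right h2 (hg0 j).le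
        have h4 : B * g j = B * n (j + 1) - B * n j := by
          show B * ((n (j + 1) : ℝ) - n j) = _
          ring
        linarith
    have h2 : Tendsto (fun j => c j * Real.exp B ^ n j) atTop (𝓝 0) :=
      (coef_tendsto hf.diff (Real.exp_pos B).le).comp hn.tendsto_atTop
    have h3 : 0 < Real.exp (Real.log (c J0) + B * n J0) := Real.exp_pos _
    obtain ⟨j, h4, h5⟩ := ((h2.eventually (gt_mem_nhds h3)).and (eventually_ge_atTop J0)).exists
    have h6 : c j * Real.exp B ^ n j = Real.exp (Real.log (c j) + B * n j) := by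
      rw [Real.exp_add, Real.exp_log (hcpos j), ← Real.exp_nat_mul, mul_comm B]
    rw [h6, Real.exp_lt_exp] at h4
    linarith [h1 j h5]
  set B : ℝ := A + Real.log (J0 + 1) + ∑ j ∈ Finset.range J0, |Real.log (c j) - Real.log (c J0)| with hB
  obtain ⟨J', hJ', hBJ'⟩ := hunb B
  obtain ⟨J, rfl⟩ : ∃ J, J = J' + 1 := ⟨_, rfl⟩
  have hsJ : B < s (J' + 1) := hBJ'.trans_le (hmono _ _ hJ' (Nat.le_succ _))
  set J := J' + 1 with hJdef
  have hJJ0 : J0 < J := by omega
  -- the logarithms of the weighted terms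
  set u : ℕ → ℝ := fun j => Real.log (c j) + n j * s J + A * (|(n j : ℝ) - n J| / g J) with hu
  set μ : ℝ := c J * Real.exp (s J) ^ n J with hμ
  have hμ0 : 0 < μ := mul_pos (hcpos J) (pow_pos (Real.exp_pos _) _)
  have hterm : ∀ j, c j * Real.exp (s J) ^ n j * R ^ (|(n j : ℝ) - n J| / g J) = Real.exp (u j) := by
    intro j
    rw [hu]
    simp only []
    rw [Real.exp_add, Real.exp_add, Real.exp_log (hcpos j), ← Real.exp_nat_mul,
      Real.rpow_def_of_pos hR0]
  have huJ : Real.exp (u J) = μ := by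
    rw [← hterm, sub_self, abs_zero, zero_div, Real.rpow_zero, mul_one]
  have hnle : ∀ i j, i ≤ j → (n i : ℝ) ≤ n j := fun i j h => by exact_mod_cast hn.monotone h
  have huJ1 : u (J + 1) = u J + A := by
    rw [hu]
    simp only []
    rw [hlog, sub_self, abs_zero, zero_div, mul_zero, add_zero, abs_of_nonneg (sub_nonneg.2
      (hnle J (J + 1) (Nat.le_succ J)))]
    rw [show ((n (J + 1) : ℝ) - n J) / g J = 1 from div_self (hg0 J).ne']
    have : (n (J + 1) : ℝ) = n J + g J := by
      show (n (J + 1) : ℝ) = n J + ((n (J + 1) : ℝ) - n J)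
      ring
    rw [this]
    ring
  have hAg : A / g J < (s (J + 1) - s J) / 2 := by
    rw [div_lt_iff₀ (hg0 J)]
    have := (hl1 J hJJ0.le).1
    linarith
  have hAg' : A / g J < (s J - s J') / 2 := by
    rw [div_lt_iff₀ (hg0 J)]
    have := (hl1 J' hJ').2.1
    linarith
  have hup : ∀ j, J + 1 ≤ j → u (j + 1) ≤ u j - C / 2 := by
    intro j hj
    have h1 : u (j + 1) - u j = - (g j * (s j - s J - A / g J)) := by
      rw [hu]
      simp only []
      rw [hlog, abs_of_nonneg (sub_nonneg.2 (hnle J (j + 1) (by omega))),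
        abs_of_nonneg (sub_nonneg.2 (hnle J j (by omega)))]
      have : (n (j + 1) : ℝ) = n j + g j := by
        show (n (j + 1) : ℝ) = n j + ((n (j + 1) : ℝ) - n j)
        ring
      rw [this]
      have := (hg0 J).ne'
      field_simp
      ring
    have h2 : C / 2 ≤ g j * (s j - s J - A / g J) := by
      rcases Nat.eq_or_lt_of_le hj with h3 | h3
      · rw [← h3]
        have h4 := (hl1 J hJJ0.le).2.1
        have h5 : (s (J + 1) - s J) / 2 ≤ s (J + 1) - s J - A / g J := by linarith
        calc C / 2 ≤ g (J + 1) * ((s (J + 1) - s J) / 2) := by linarith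
          _ ≤ _ := mul_le_mul_of_nonneg_left h5 (hg0 _).le
      · obtain ⟨i, rfl⟩ : ∃ i, j = i + 1 := ⟨j - 1, by omega⟩
        have h4 := (hl1 i (by omega)).2.1
        have h5 := hmono (J + 1) i (by omega) (by omega)
        have h6 : s (i + 1) - s i ≤ s (i + 1) - s J - A / g J := by
          have := (hl1 J hJJ0.le).2.2
          linarith
        calc C / 2 ≤ g (i + 1) * (s (i + 1) - s i) := by linarith
          _ ≤ _ := mul_le_mul_of_nonneg_left h6 (hg0 _).le
    linarith
  have hlow : ∀ j, J0 ≤ j → j < J → u j ≤ u (j + 1) - C / 2 := by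
    intro j hj hjJ
    have h1 : u j - u (j + 1) = - (g j * (s J - s j - A / g J)) := by
      rw [hu]
      simp only []
      rw [hlog, abs_of_nonpos (sub_nonpos.2 (hnle (j + 1) J (by omega))),
        abs_of_nonpos (sub_nonpos.2 (hnle j J (by omega)))]
      have : (n (j + 1) : ℝ) = n j + g j := by
        show (n (j + 1) : ℝ) = n j + ((n (j + 1) : ℝ) - n j)
        ring
      rw [this]
      have := (hg0 J).ne'
      field_simp
      ring
    have h2 : C / 2 ≤ g j * (s J - s j - A / g J) := by
      rcases Nat.eq_or_lt_of_le (Nat.le_of_lt_succ hjJ) with h3 | h3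
      · rw [h3]
        have h4 := (hl1 J' hJ').1
        have h5 : (s J - s J') / 2 ≤ s J - s J' - A / g J := by linarith
        calc C / 2 ≤ g J' * ((s J - s J') / 2) := by linarith
          _ ≤ _ := mul_le_mul_of_nonneg_left h5 (hg0 _).le
      · have h4 := (hl1 j hj).1
        have h5 := hmono (j + 1) J' (by omega) (by omega)
        have h6 : s (j + 1) - s j ≤ s J - s j - A / g J := by
          have := (hl1 J' hJ').2.2
          linarith
        calc C / 2 ≤ g j * (s (j + 1) - s j) := by linarith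
          _ ≤ _ := mul_le_mul_of_nonneg_left h6 (hg0 _).le
    linarith
  have hup' : ∀ i, u (J + 1 + i) ≤ u J + A - i * (C / 2) := by
    intro i
    induction i with
    | zero => rw [add_zero, huJ1]; simp
    | succ i ih =>
      have h1 := hup (J + 1 + i) (by omega)
      rw [← add_assoc]
      push_cast
      linarith
  have hlow' : ∀ i, i ≤ J - J0 → u (J - i) ≤ u J - i * (C / 2) := by
    intro i
    induction i with
    | zero => intro _; simp
    | succ i ih =>
      intro hi
      have h1 := hlow (J - (i + 1)) (by omega) (by omega)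
      rw [show J - (i + 1) + 1 = J - i by omega] at h1
      have h2 := ih (by omega)
      push_cast
      linarith
  have hinit : ∀ j, j < J0 → u j ≤ u J0 - Real.log (J0 + 1) := by
    intro j hj
    have h1 : u j - u J0 = Real.log (c j) - Real.log (c J0)
        - ((n J0 : ℝ) - n j) * (s J - A / g J) := by
      rw [hu]
      simp only []
      rw [abs_of_nonpos (sub_nonpos.2 (hnle j J (by omega))),
        abs_of_nonpos (sub_nonpos.2 (hnle J0 J (by omega)))]
      have := (hg0 J).ne'
      field_simp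
      ring
    have h2 : |Real.log (c j) - Real.log (c J0)| ≤
        ∑ j ∈ Finset.range J0, |Real.log (c j) - Real.log (c J0)| :=
      Finset.single_le_sum (f := fun j => |Real.log (c j) - Real.log (c J0)|)
        (fun i _ => abs_nonneg _) (Finset.mem_range.2 hj)
    have h3 : A / g J ≤ A := div_le_self hA0.le (hg1 J)
    have h4 : (1 : ℝ) ≤ (n J0 : ℝ) - n j := by
      have h5 : n j + 1 ≤ n J0 := hn hj
      have h6 : ((n j + 1 : ℕ) : ℝ) ≤ n J0 := by exact_mod_cast h5
      push_cast at h6
      linarith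
    have h5 : 0 ≤ Real.log ((J0 : ℝ) + 1) := Real.log_nonneg (by
      have : (0 : ℝ) ≤ J0 := Nat.cast_nonneg _
      linarith)
    have h6 : 0 ≤ s J - A / g J := by
      have := abs_nonneg (Real.log (c j) - Real.log (c J0))
      linarith
    have h7 : s J - A / g J ≤ ((n J0 : ℝ) - n j) * (s J - A / g J) :=
      le_mul_of_one_le_left h6 h4
    have h8 := le_abs_self (Real.log (c j) - Real.log (c J0))
    linarith
  have hKinv : ∀ i : ℕ, Real.exp (-(i * (C / 2))) = (K⁻¹) ^ i := by
    intro i
    rw [hKdef, ← Real.exp_neg, ← Real.exp_nat_mul]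
    congr 1
    ring
  have hRA : Real.exp A = R := Real.exp_log hR0
  -- domination
  apply hD f hf (Real.exp (s J)) μ (n J) (n (J + 1) - n J)
  have hw : n J < n (J + 1) := hn (Nat.lt_succ_self J)
  have hwr : ((n (J + 1) - n J : ℕ) : ℝ) = g J := Nat.cast_sub hw.le
  have hidx : n J + 1 * (n (J + 1) - n J) = n (J + 1) := by omega
  have htJ1 : c (J + 1) * Real.exp (s J) ^ n (J + 1) = μ := by
    have h1 := hterm (J + 1)
    rw [huJ1, Real.exp_add, huJ, hRA, abs_of_nonneg (sub_nonneg.2 (hnle J (J + 1) (Nat.le_succ J))),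
      show ((n (J + 1) : ℝ) - n J) / g J = 1 from div_self (hg0 J).ne', Real.rpow_one] at h1
    exact mul_right_cancel₀ hR0.ne' h1
  refine ⟨Real.exp_pos _, hμ0, by omega, fun i hi => ?_, ⟨0, 1, one_pos, le_rfl, ?_, ?_⟩,
    fun t ht => ?_⟩
  · interval_cases i
    · rw [zero_mul, add_zero]
    · rw [hidx]
      exact htJ1.le
  · rw [zero_mul, add_zero]
  · rw [hidx]
    exact htJ1
  · rw [hwr]
    have h1 : ∑ j ∈ t.preimage n hn.injective.injOn, (‖coef f (n j)‖ * Real.exp (s J) ^ n j *
        R ^ (|(n j : ℝ) - n J| / g J)) = ∑ k ∈ t, ‖coef f k‖ * Real.exp (s J) ^ k *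
        R ^ (|(k : ℝ) - n J| / g J) :=
      Finset.sum_preimage n t hn.injective.injOn (fun k => ‖coef f k‖ * Real.exp (s J) ^ k *
        R ^ (|(k : ℝ) - n J| / g J)) (fun k _ hk => by
          have h2 : coef f k = 0 := by
            by_contra h
            exact hk ((hcoef k).1 h)
          rw [h2, norm_zero, zero_mul, zero_mul])
    rw [← h1]
    have h2 : ∀ j ∈ t.preimage n hn.injective.injOn, j ≠ J ∧ j ≠ J + 1 := by
      intro j hj
      rw [Finset.mem_preimage] at hj
      refine ⟨fun h => ht _ hj 0 (by omega) (by rw [h]; omega),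
        fun h => ht _ hj 1 le_rfl (by rw [h]; omega)⟩
    have h3 : ∑ j ∈ t.preimage n hn.injective.injOn, (‖coef f (n j)‖ * Real.exp (s J) ^ n j *
        R ^ (|(n j : ℝ) - n J| / g J)) = ∑ j ∈ t.preimage n hn.injective.injOn, Real.exp (u j) :=
      Finset.sum_congr rfl fun j _ => hterm j
    rw [h3]
    set T := t.preimage n hn.injective.injOn with hT
    have h4 : ∑ j ∈ T, Real.exp (u j) = ∑ j ∈ T, (if j < J0 then 0 else Real.exp (u j))
        + ∑ j ∈ T with j < J0, Real.exp (u j) := by
      rw [Finset.sum_filter, ← Finset.sum_add_distrib]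
      refine Finset.sum_congr rfl fun j _ => ?_
      split_ifs <;> simp
    have h5 : ∑ j ∈ T, (if j < J0 then 0 else Real.exp (u j)) ≤ 4 * (μ * R) / K := by
      apply geom_out (n := J) (d := 1) hK2 (by positivity)
      · intro k hk
        split_ifs with h6
        · positivity
        · have h7 := hlow' (J - k) (by omega)
          rw [show J - (J - k) = k by omega] at h7
          calc Real.exp (u k) ≤ Real.exp (u J + -(((J - k : ℕ) : ℝ) * (C / 2))) :=
                Real.exp_le_exp.2 (by linarith)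
            _ = μ * (K⁻¹) ^ (J - k) := by rw [Real.exp_add, huJ, hKinv]
            _ ≤ μ * R * (K⁻¹) ^ (J - k) := by
                have h8 : 0 ≤ (K⁻¹) ^ (J - k) := by positivity
                exact mul_le_mul_of_nonneg_right (le_mul_of_one_le_right hμ0.le hR.le) h8
      · intro k hk
        rw [if_neg (by omega)]
        have h7 := hup' (k - (J + 1))
        rw [show J + 1 + (k - (J + 1)) = k by omega] at h7
        calc Real.exp (u k) ≤ Real.exp (u J + A + -(((k - (J + 1) : ℕ) : ℝ) * (C / 2))) :=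
              Real.exp_le_exp.2 (by linarith)
          _ = μ * R * (K⁻¹) ^ (k - (J + 1)) := by
              rw [Real.exp_add, Real.exp_add, huJ, hRA, hKinv]
      · intro k hk
        have := h2 k hk
        omega
    have h6 : ∑ j ∈ T with j < J0, Real.exp (u j) ≤ μ * R / K := by
      have h7 : Real.exp (u J0) ≤ μ / K := by
        have h8 := hlow' (J - J0) le_rfl
        rw [show J - (J - J0) = J0 by omega] at h8
        have h9 : (1 : ℝ) ≤ ((J - J0 : ℕ) : ℝ) := by exact_mod_cast (by omega : 1 ≤ J - J0)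
        have h10 : u J0 ≤ u J + -((1 : ℕ) * (C / 2)) := by
          have : 1 * (C / 2) ≤ ((J - J0 : ℕ) : ℝ) * (C / 2) :=
            mul_le_mul_of_nonneg_right h9 (by linarith)
          push_cast
          linarith
        calc Real.exp (u J0) ≤ Real.exp (u J + -((1 : ℕ) * (C / 2))) := Real.exp_le_exp.2 h10
          _ = μ * (K⁻¹) ^ 1 := by rw [Real.exp_add, huJ, hKinv]
          _ = μ / K := by rw [pow_one, div_eq_mul_inv]
      have h8 : (0 : ℝ) < J0 + 1 := by positivity
      calc ∑ j ∈ T with j < J0, Real.exp (u j)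
          ≤ ∑ j ∈ T with j < J0, Real.exp (u J0) / (J0 + 1) := by
            refine Finset.sum_le_sum fun j hj => ?_
            have h9 := hinit j (Finset.mem_filter.1 hj).2
            calc Real.exp (u j) ≤ Real.exp (u J0 - Real.log (J0 + 1)) := Real.exp_le_exp.2 h9
              _ = Real.exp (u J0) / (J0 + 1) := by rw [Real.exp_sub, Real.exp_log h8]
        _ = ((T.filter fun j => j < J0).card : ℝ) * (Real.exp (u J0) / (J0 + 1)) := by
            rw [Finset.sum_const, nsmul_eq_mul]
        _ ≤ (J0 + 1 : ℝ) * (Real.exp (u J0) / (J0 + 1)) := by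
            have h9 : (T.filter fun j => j < J0).card ≤ J0 := by
              calc (T.filter fun j => j < J0).card ≤ (Finset.range J0).card :=
                    Finset.card_le_card fun j hj =>
                      Finset.mem_range.2 (Finset.mem_filter.1 hj).2
                _ = J0 := Finset.card_range J0
            have h10 : ((T.filter fun j => j < J0).card : ℝ) ≤ J0 + 1 := by
              have : ((T.filter fun j => j < J0).card : ℝ) ≤ J0 := by exact_mod_cast h9
              linarith
            gcongr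
        _ = Real.exp (u J0) := by field_simp
        _ ≤ μ / K := h7
        _ ≤ μ * R / K := by
            gcongr
            exact le_mul_of_one_le_right hμ0.le hR.le
    calc ∑ j ∈ T, Real.exp (u j) ≤ 4 * (μ * R) / K + μ * R / K := by rw [h4]; exact add_le_add h5 h6
      _ = (5 * R / K) * μ := by ring
      _ ≤ ε * μ := by gcongr

end Pool.Agent.K7.H75.LG
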