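import Pool.Agent.K7.H75.LG.Base

/-! Rational curves in projective varieties given by forms. -/

set_option autoImplicit false
set_option linter.unusedSectionVars false

namespace Pool.Agent.K7.H75.LG

open Filter Topology Metric Set MvPolynomial

variable {N : ℕ} {X : Set (Fin N → ℂ)}

/-- The subset of the projective space with the cone `X` contains a nonconstant rational curve of
degree at most `d`: there is a nonconstant map from the line to it given by polynomials of degree at
most `d` without common zeros. -/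
def RatCurve (X : Set (Fin N → ℂ)) (d : ℕ) : Prop :=
  ∃ P : Fin N → Polynomial ℂ, (∀ p, (P p).natDegree ≤ d) ∧ (∀ t, ∃ p, (P p).eval t ≠ 0) ∧
    (∀ t, (fun p => (P p).eval t) ∈ X) ∧
    ∃ s t p q, (P p).eval s * (P q).eval t ≠ (P q).eval s * (P p).eval t

theorem RatCurve.mono {d e : ℕ} (h : RatCurve X d) (hde : d ≤ e) :
    RatCurve X e := by
  obtain ⟨P, h1, h2⟩ := h
  exact ⟨P, fun p => (h1 p).trans hde, h2⟩

/-- cancelling common zeros -/
theorem ratCurve_of_poly (hX : IsClosed X) (hs : ∀ (a : ℂ), ∀ x ∈ X, a • x ∈ X) :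
    ∀ (d : ℕ) (P : Fin N → Polynomial ℂ), (∀ p, (P p).natDegree ≤ d) →
    (∀ t, (fun p => (P p).eval t) ∈ X) →
    (∃ s t p q, (P p).eval s * (P q).eval t ≠ (P q).eval s * (P p).eval t) → RatCurve X d := by
  intro d
  induction d with
  | zero =>
    intro P hd hm hn
    exfalso
    obtain ⟨s, t, p, q, h⟩ := hn
    apply h
    have h1 : ∀ p t s, (P p).eval t = (P p).eval s := by
      intro p t s
      rw [Polynomial.eq_C_of_natDegree_le_zero (hd p)]
      simp
    rw [h1 p s t, h1 q t s]
    ring
  | succ d ih =>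
    intro P hd hm hn
    by_cases h0 : ∀ t, ∃ p, (P p).eval t ≠ 0
    · exact ⟨P, hd, h0, hm, hn⟩
    push Not at h0
    obtain ⟨t0, ht0⟩ := h0
    have h1 : ∀ p, ∃ Q : Polynomial ℂ, P p = (Polynomial.X - Polynomial.C t0) * Q := fun p =>
      Polynomial.dvd_iff_isRoot.2 (ht0 p)
    choose Q hQ using h1
    have hev : ∀ t, (fun p => (P p).eval t) = (t - t0) • fun p => (Q p).eval t := by
      intro t
      funext p
      rw [hQ]
      simp
    refine (ih Q ?_ ?_ ?_).mono (Nat.le_succ d)
    · intro p
      by_cases h2 : Q p = 0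
      · rw [h2]; simp
      · have h3 := hd p
        rw [hQ, Polynomial.natDegree_mul (Polynomial.X_sub_C_ne_zero t0) h2,
          Polynomial.natDegree_X_sub_C] at h3
        omega
    · intro t
      have h2 : ∀ t, t ≠ t0 → (fun p => (Q p).eval t) ∈ X := by
        intro t ht
        have h3 := hs (t - t0)⁻¹ _ (hm t)
        rw [hev, smul_smul, inv_mul_cancel₀ (sub_ne_zero.2 ht), one_smul] at h3
        exact h3
      have h4 : Continuous fun t : ℂ => fun p => (Q p).eval t := by fun_prop
      have h5 : IsClosed {t : ℂ | (fun p => (Q p).eval t) ∈ X} := hX.preimage h4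
      have h6 : closure ({t0}ᶜ : Set ℂ) ⊆ {t : ℂ | (fun p => (Q p).eval t) ∈ X} :=
        closure_minimal (fun t ht => h2 t ht) h5
      rw [(dense_compl_singleton t0).closure_eq] at h6
      exact h6 (mem_univ t)
    · obtain ⟨s, t, p, q, h⟩ := hn
      refine ⟨s, t, p, q, fun h2 => h ?_⟩
      rw [hQ p, hQ q]
      simp only [Polynomial.eval_mul]
      linear_combination (((Polynomial.X - Polynomial.C t0).eval s) *
        ((Polynomial.X - Polynomial.C t0).eval t)) * h2

end Pool.Agent.K7.H75.LG
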